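import Pool.Agent.Lib.MP_82ac4a_mp.Base30
import Pool.Agent.Lib.MP_82ac4a_mp.Defs30
import Pool.Agent.Lib.MP_82ac4a_mp.ADJ30
import Pool.Agent.Lib.MP_82ac4a_mp.COVER70
import Pool.Agent.Lib.MP_82ac4a_mp.DISJ70
import Pool.Agent.Lib.MP_82ac4a_mp.DOS83
import Pool.Agent.Lib.MP_82ac4a_mp.UQ83
import Pool.Agent.Lib.MP_82ac4a_mp.EN93
import Pool.Agent.Lib.MP_82ac4a_mp.Eig21
import Pool.Agent.Lib.MP_82ac4a_mp.LR74
import Pool.Agent.Lib.MP_82ac4a_mp.Mass21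
import Pool.Agent.Lib.MP_82ac4a_mp.POLY49
import Pool.Agent.Lib.MP_82ac4a_mp.PROT29
import Pool.Agent.Lib.MP_82ac4a_mp.VH41

namespace Pool.Agent.Results.MP_82ac4a_mp.ManyJumps

open Filter Topology MeasureTheory Pool.Agent.Lib.MP_82ac4a_mp

/-- The tilings of the construction are doubly periodic. -/
theorem periodic (M : ℕ) (a : Idx M) (g : ℤ × ℤ) :
    tl M ((a.1.1 + g.1, a.1.2 + g.2), a.2) =
      trans (2 * (4 * M + 1) * (g.1 : ℝ), 2 * (4 * M + 1) * (g.2 : ℝ)) (tl M a) := by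
  ext p
  have h : unfold M (a.1.1 + g.1, a.1.2 + g.2) a.2.1 p = unfold M a.1 a.2.1
      (p - (2 * (4 * M + 1) * (g.1 : ℝ), 2 * (4 * M + 1) * (g.2 : ℝ))) := by
    unfold unfold
    split_ifs
    · refine Prod.ext ?_ ?_ <;> (push_cast; simp only [Prod.fst_sub, Prod.snd_sub]; ring)
    · refine Prod.ext ?_ ?_ <;> (push_cast; simp only [Prod.fst_sub, Prod.snd_sub]; ring)
  show unfold M (a.1.1 + g.1, a.1.2 + g.2) a.2.1 p ∈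
    cell M (a.2.2.1.1 : ℕ) (a.2.2.1.2 : ℕ) ↔ unfold M a.1 a.2.1
      (p - (2 * (4 * M + 1) * (g.1 : ℝ), 2 * (4 * M + 1) * (g.2 : ℝ))) ∈
    cell M (a.2.2.1.1 : ℕ) (a.2.2.1.2 : ℕ)
  rw [h]

open Prot29 in
/-- The prototiles: at most 40, the same ones for all M. -/
theorem proto : ∃ P : Set (Set (ℝ × ℝ)), P.encard ≤ 40 ∧ ∀ M, 1 ≤ M → ∀ a : Idx M,
    ∃ t ∈ P, ∃ v, tl M a = trans v t := by
  refine ⟨Set.range fun x : (Bool × Bool × Bool) × Fin 5 => {p | fold x.1 p ∈ shp x.2},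
    ?_, fun M hM a => ?_⟩
  · rw [← Set.image_univ]
    refine (Set.encard_image_le _ _).trans ?_
    rw [Set.encard_univ, ENat.card_eq_coe_fintype_card]
    have : Fintype.card ((Bool × Bool × Bool) × Fin 5) = 40 := by simp
    rw [this]
    exact le_refl _
  · obtain ⟨k, α, β, hk⟩ := cell_shape M (a.2.2.1.1 : ℕ) (a.2.2.1.2 : ℕ) hM a.2.2.1.1.2 a.2.2.2
    obtain ⟨v, hv⟩ := unfold_eq M a.1 a.2.1 (0, 0) α β
    refine ⟨_, ⟨(a.2.1, k), rfl⟩, v, ?_⟩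
    ext p
    have h1 := hk (unfold M a.1 a.2.1 p).1 (unfold M a.1 a.2.1 p).2
    rw [hv p] at h1
    exact h1

theorem result : ∃ P : Set (Set (ℝ × ℝ)), P.encard ≤ 40 ∧ ∀ N : ℕ, ∃ (ι : Type) (T : Tiling ι),
    (∀ i, ∃ t ∈ P, ∃ v, T.tile i = trans v t) ∧
    (∃ l : ℝ, 0 < l ∧ ∀ (m n : ℤ) (i : ι), ∃ j, T.tile j = trans (l * m, l * n) (T.tile i)) ∧
    T.LinRep ∧ (∃ V, T.VanHove V) ∧ (∃! ν, T.IsDOS ν) ∧
    ∃ (S : Finset ℝ) (c : ℝ), N ≤ S.card ∧ 0 < c ∧ ∀ E ∈ S,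
      (∀ V, T.VanHove V → ∀ᶠ n in atTop, c ≤ T.mass (V n) E) ∧
      ∀ ν, T.IsDOS ν → c ≤ (ν {E}).toReal := by
  obtain ⟨P, hP, hP'⟩ := proto
  refine ⟨P, hP, fun N => ?_⟩
  have hM : 1 ≤ N + 1 := by omega
  let T : Tiling (Idx (N + 1)) :=
    { tile := tl (N + 1)
      polygon := poly49 (N + 1) hM
      cover := cover70 (N + 1) hM
      disj := disj70 (N + 1) hM }
  have hT : T.tile = tl (N + 1) := rfl
  obtain ⟨V, hV⟩ := vh41 (N + 1) hM T hT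
  obtain ⟨c, hc, hc'⟩ := mass21 (eig21 adj30) (N + 1) hM T hT
  obtain ⟨S, hS, hS'⟩ := EN93 (N + 1) hM
  refine ⟨Idx (N + 1), T, hP' (N + 1) hM, ⟨2 * (4 * ((N + 1 : ℕ) : ℝ) + 1), by positivity,
    fun m n a => ⟨_, periodic (N + 1) a (m, n)⟩⟩, lr74 (N + 1) hM T hT, ⟨V, hV⟩,
    existsUnique83 (N + 1) T hT, S, c, ?_, hc, ?_⟩
  · omega
  · intro E hE
    obtain ⟨f, hf⟩ := hS' E hE
    exact ⟨fun W hW => hc' E f hf W hW, fun ν hν => dos83 (Idx (N + 1)) T E c V hV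
      (hc' E f hf V hV) ν hν⟩

end Pool.Agent.Results.MP_82ac4a_mp.ManyJumps
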